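import Mathlib
import Pool.Agent.X126.PurB

/-! # MP_923311_co: the Möbius-zero subcomplex of a pattern interval need not be pure

Permutations of length `n` are lists (one-line notation with the entries `0, …, n-1`). In
`Pool.Agent.X126.Pur`: `IsPerm`, `Le σ π` (pattern containment: `π` has a subsequence whose entries
are in the same relative order as those of `σ`), `Lt` (proper containment), the Möbius function
`mu σ π` by its recursion, and `IsFacet Z c`: `c` is a maximal finite chain of elements of `Z`.

`Γ(σ, π)` is not pure for `σ = 1`, `π = 14352`: the elements `τ` of the open interval with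
`μ(σ, τ) = 0` are `123`, `321` and `1432`, and the maximal chains are `{123}` and `{321 < 1432}`.

The complex of the elements with `μ(σ, τ) ≠ 0` (the elements that remain when the former are
deleted) is not always pure either: for `σ = 1`, `π = 132564` it has the maximal chains
`12 < 132 < 1342` and `21 < 213 < 2143 < 13254`. -/

set_option autoImplicit false

namespace Pool.Agent.Results.MP_923311_co.NotPure

open Pool.Agent.X126.Pur

/-- The elements `τ` of the open interval `(σ, π)` with `μ(σ, τ) = 0`; the order complex of this set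
is `Γ(σ, π)`. -/
def Gamma (σ π : List ℕ) : Set (List ℕ) :=
  {τ | IsPerm τ ∧ Lt σ τ ∧ Lt τ π ∧ mu σ τ = 0}

/-- The elements `τ` of the open interval `(σ, π)` with `μ(σ, τ) ≠ 0`. -/
def Rest (σ π : List ℕ) : Set (List ℕ) :=
  {τ | IsPerm τ ∧ Lt σ τ ∧ Lt τ π ∧ mu σ τ ≠ 0}

/-- The order complex of `Z` is pure: all maximal chains have the same number of elements. -/
def Pure (Z : Set (List ℕ)) : Prop :=
  ∀ c d : Finset (List ℕ), IsFacet Z c → IsFacet Z d → c.card = d.card

/-- **Main result.** Q1 has a negative answer; the analogous statement for the elements with nonzero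
Möbius function is false as well. (The last part explains `Lt`.) -/
theorem result :
    (¬ ∀ σ π : List ℕ, IsPerm σ → IsPerm π → Le σ π → Pure (Gamma σ π)) ∧
    (¬ ∀ σ π : List ℕ, IsPerm σ → IsPerm π → Le σ π → Pure (Rest σ π)) ∧
    (IsFacet (Gamma [0] [0, 3, 2, 4, 1]) {[0, 1, 2]} ∧
      IsFacet (Gamma [0] [0, 3, 2, 4, 1]) {[2, 1, 0], [0, 3, 2, 1]}) ∧
    (IsFacet (Rest [0] [0, 2, 1, 4, 5, 3]) {[0, 1], [0, 2, 1], [0, 2, 3, 1]} ∧
      IsFacet (Rest [0] [0, 2, 1, 4, 5, 3]) {[1, 0], [1, 0, 2], [1, 0, 3, 2], [0, 2, 1, 4, 3]}) ∧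
    (∀ σ π : List ℕ, IsPerm σ → IsPerm π → (Lt σ π ↔ Le σ π ∧ σ ≠ π)) := by
  refine ⟨fun h => ?_, fun h => ?_, ex1, ex2, fun σ π h1 h2 => lt_iff h1 h2⟩
  · have := h [0] [0, 3, 2, 4, 1] (by decide +kernel) (by decide +kernel) le_ex1 _ _ ex1.1 ex1.2
    revert this
    decide
  · have := h [0] [0, 2, 1, 4, 5, 3] (by decide +kernel) (by decide +kernel) le_ex2 _ _ ex2.1 ex2.2
    revert this
    decide

end Pool.Agent.Results.MP_923311_co.NotPure
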